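import Pool.Agent.helper81.UH.Spec

/-!
# Row uh:COI (MP_a2a22c_al): the coincidence elements and the blocks of the stabiliser
-/

set_option autoImplicit false

namespace Pool.Agent.UH

open Matrix Pool.Agent.H48SL Pool.Agent.UG

theorem COI_fy {n : ℕ} (X : Fin n → MQ (n + 1)) (f y : Fin (n + 1) → ℚ)
    (hrow : ∀ j, f ᵥ* X j = 0) (hf : f ≠ 0) (hd : dl X y ≠ 0) : f ⬝ᵥ y ≠ 0 := by
  intro h0
  apply hf
  have h1 : f ᵥ* NM X y = 0 := by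
    ext j
    refine Fin.cases ?_ (fun j => ?_) j
    · exact h0
    · show f ⬝ᵥ (X j *ᵥ y) = 0
      rw [Matrix.dotProduct_mulVec, hrow j, zero_dotProduct]
  exact Matrix.eq_zero_of_vecMul_eq_zero hd h1

theorem COI_ev {n : ℕ} (P : MvPolynomial (Fin n × Fin n) ℚ) {F : ℚ → MQ n} (hF : PC F) :
    ∃ p : Polynomial ℚ, ∀ t, ev P (F t) = p.eval t := by
  choose q hq using hF
  unfold ev
  induction P using MvPolynomial.induction_on with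
  | C c => exact ⟨Polynomial.C c, fun t => by simp⟩
  | add P Q hP hQ =>
    obtain ⟨p, hp⟩ := hP
    obtain ⟨r, hr⟩ := hQ
    exact ⟨p + r, fun t => by rw [map_add, Polynomial.eval_add, hp, hr]⟩
  | mul_X P i hP =>
    obtain ⟨p, hp⟩ := hP
    exact ⟨p * q i.1 i.2, fun t => by
      rw [map_mul, Polynomial.eval_mul, hp, MvPolynomial.eval_X, hq]⟩

theorem COI_zero {p : Polynomial ℚ} {D : ℚ} (hD : D ≠ 0) (h : ∀ t : ℤ, p.eval (D * t) = 0) :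
    p = 0 := by
  apply Polynomial.eq_zero_of_infinite_isRoot
  apply Set.Infinite.mono (s := Set.range (fun t : ℤ => D * (t : ℚ)))
  · rintro _ ⟨t, rfl⟩
    exact h t
  · apply Set.infinite_range_of_injective
    intro a b hab
    have := mul_left_cancel₀ hD hab
    exact_mod_cast this

theorem COI_dn {n : ℕ} {F : ℚ → MQ (n + 1)} (hF : PC F) : PC (fun t => dn (F t)) :=
  fun i j => hF i.succ j.succ

theorem COI_yv {n : ℕ} (h : SLZ (n + 1)) : qg h *ᵥ yv h = e0 n := by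
  unfold yv
  rw [mulVec_mulVec, qg_mul_inv, one_mulVec]

theorem COI_cancel {n : ℕ} (h : SLZ n) (v : Fin n → ℚ) : qg h *ᵥ (qg h⁻¹ *ᵥ v) = v := by
  rw [mulVec_mulVec, qg_mul_inv, one_mulVec]

/-- the coincidence element fixes the first basis vector -/
theorem COI_fix {n : ℕ} (h g : SLZ (n + 1)) (z : Fin (n + 1) → ℚ) (T : ℚ)
    (U V W : MQ (n + 1)) (hU : U *ᵥ yv g = yv g + T • (qg g⁻¹ *ᵥ z))
    (hV : V *ᵥ yv h = yv h + T • (qg h⁻¹ *ᵥ z)) (hW : W * V = 1) :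
    ((qg h * W * qg h⁻¹) * (qg g * U * qg g⁻¹)) *ᵥ e0 n = e0 n := by
  have h1 : (qg g * U * qg g⁻¹) *ᵥ e0 n = e0 n + T • z := by
    have h2 : (qg g * U * qg g⁻¹) *ᵥ e0 n = qg g *ᵥ (U *ᵥ yv g) := by
      unfold yv
      rw [mulVec_mulVec, mulVec_mulVec, Matrix.mul_assoc]
    rw [h2, hU, mulVec_add, COI_yv, mulVec_smul, COI_cancel]
  have h3 : (qg h * W * qg h⁻¹) *ᵥ (e0 n + T • z) = qg h *ᵥ (W *ᵥ (V *ᵥ yv h)) := by
    rw [hV]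
    have h4 : yv h + T • (qg h⁻¹ *ᵥ z) = qg h⁻¹ *ᵥ (e0 n + T • z) := by
      unfold yv
      rw [mulVec_add, mulVec_smul]
    rw [h4, mulVec_mulVec, mulVec_mulVec, Matrix.mul_assoc]
  rw [← mulVec_mulVec, h1, h3, mulVec_mulVec (yv h) W V, hW, one_mulVec, COI_yv]

theorem COI (hLIN : LIN_stmt) (hPCU : PCU_stmt) (hFLG : FLG_stmt) (hZZK : ZZK_stmt) :
    COI_stmt := by
  intro n N A H 𝔞 X f hD hf hAH P hP h hh g hg hdh hdg a b c t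
  obtain ⟨zh, zg, -⟩ := hZZK n N X f h g a b c
  have hrow : ∀ j, f ᵥ* X j = 0 := fun j => hD.row _ (hD.mem j)
  have fyh := COI_fy X f (yv h) hrow hf hdh
  have fyg := COI_fy X f (yv g) hrow hf hdg
  have zh' : ∀ T : ℚ, f ⬝ᵥ (T • (qg h⁻¹ *ᵥ zz f h g a b c)) = 0 := fun T => by
    rw [dotProduct_smul, zh, smul_zero]
  have zg' : ∀ T : ℚ, f ⬝ᵥ (T • (qg g⁻¹ *ᵥ zz f h g a b c)) = 0 := fun T => by
    rw [dotProduct_smul, zg, smul_zero]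
  have Fh := fun T : ℚ => hFLG n N 𝔞 X f (yv h) (T • (qg h⁻¹ *ᵥ zz f h g a b c)) hD.la.nn
    hD.mem hD.row hdh fyh (zh' T)
  have Fg := fun T : ℚ => hFLG n N 𝔞 X f (yv g) (T • (qg g⁻¹ *ᵥ zz f h g a b c)) hD.la.nn
    hD.mem hD.row hdg fyg (zg' T)
  obtain ⟨D₁, hD₁, L₁⟩ := hLIN n N A 𝔞 X (yv h) (qg h⁻¹ *ᵥ zz f h g a b c) hD.la hD.mem
  obtain ⟨D₂, hD₂, L₂⟩ := hLIN n N A 𝔞 X (yv g) (qg g⁻¹ *ᵥ zz f h g a b c) hD.la hD.mem
  -- polynomial dependence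
  have p1 : PC (fun t : ℚ => U2 N X (yv h) (t • (qg h⁻¹ *ᵥ zz f h g a b c))) :=
    (hPCU n N 𝔞 X (yv h) (qg h⁻¹ *ᵥ zz f h g a b c) hD.la.nn hD.mem N).2.1
  have p2 : PC (fun t : ℚ => U1 N X (yv g) (t • (qg g⁻¹ *ᵥ zz f h g a b c))) :=
    (hPCU n N 𝔞 X (yv g) (qg g⁻¹ *ᵥ zz f h g a b c) hD.la.nn hD.mem N).1
  have p3 : PC (fun t : ℚ => SS N X f h g a b c t) := by
    unfold SS
    exact (((PC.const (qg h)).mul p1).mul (PC.const (qg h⁻¹))).mul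
      (((PC.const (qg g)).mul p2).mul (PC.const (qg g⁻¹)))
  obtain ⟨p, hp⟩ := COI_ev P (COI_dn p3)
  have hp0 : p = 0 := by
    have hDne : (((D₁ : ℚ) * (D₂ : ℚ)) : ℚ) ≠ 0 := by
      have e1 : (D₁ : ℚ) ≠ 0 := by exact_mod_cast (by omega : D₁ ≠ 0)
      have e2 : (D₂ : ℚ) ≠ 0 := by exact_mod_cast (by omega : D₂ ≠ 0)
      exact mul_ne_zero e1 e2
    apply COI_zero hDne
    intro s
    rw [← hp]
    obtain ⟨a₁, ha₁, e₁⟩ := L₁ ((D₂ : ℤ) * s)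
    obtain ⟨a₂, ha₂, e₂⟩ := L₂ ((D₁ : ℤ) * s)
    have t1 : (D₁ : ℚ) * (((D₂ : ℤ) * s : ℤ) : ℚ) = (D₁ : ℚ) * (D₂ : ℚ) * (s : ℚ) := by
      push_cast; ring
    have t2 : (D₂ : ℚ) * (((D₁ : ℤ) * s : ℤ) : ℚ) = (D₁ : ℚ) * (D₂ : ℚ) * (s : ℚ) := by
      push_cast; ring
    rw [t1] at e₁
    rw [t2] at e₂
    generalize (D₁ : ℚ) * (D₂ : ℚ) * (s : ℚ) = T at e₁ e₂ ⊢
    obtain ⟨u1, u2, u3⟩ := Fh T
    obtain ⟨v1, -, -⟩ := Fg T
    have i1 : qg a₁⁻¹ = U2 N X (yv h) (T • (qg h⁻¹ *ᵥ zz f h g a b c)) := by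
      have : qg a₁⁻¹ * (U1 N X (yv h) (T • (qg h⁻¹ *ᵥ zz f h g a b c)) *
          U2 N X (yv h) (T • (qg h⁻¹ *ᵥ zz f h g a b c))) = qg a₁⁻¹ := by
        rw [u2, mul_one]
      rw [← this, ← mul_assoc, ← e₁, qg_inv_mul, one_mul]
    have hs : qg ((h * a₁⁻¹ * h⁻¹) * (g * a₂ * g⁻¹)) = SS N X f h g a b c T := by
      unfold SS
      rw [qg_mul, qg_mul, qg_mul, qg_mul, qg_mul, i1, e₂]
    have hfx : fx ((h * a₁⁻¹ * h⁻¹) * (g * a₂ * g⁻¹)) := by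
      unfold fx
      rw [hs]
      unfold SS
      exact COI_fix h g (zz f h g a b c) T _ _ _ v1 u1 u3
    have hmem : (h * a₁⁻¹ * h⁻¹) * (g * a₂ * g⁻¹) ∈ H :=
      H.mul_mem (H.mul_mem (H.mul_mem hh (H.inv_mem (hAH ha₁))) (H.inv_mem hh))
        (H.mul_mem (H.mul_mem hg (hAH ha₂)) (H.inv_mem hg))
    have hbl : bl _ hfx ∈ Hb H := mem_Hb.2 ⟨_, hmem, hfx, (qg_bl _ hfx).symm⟩
    have := hP _ hbl
    rw [qg_bl, hs] at this
    exact this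
  have := hp t
  rw [hp0, Polynomial.eval_zero] at this
  exact this

end Pool.Agent.UH
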